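import Pool.Agent.SHP.Stmts

/-!
# MP_d2d93c_nt, THEOREM E: at most `C N^ε` exceptional pairs (helper80)

`A = f² - g²`, `B = 2fg`, `C = f² + g²`, `C^x + B^y = A^z`, `f - g > 1`.
THEOREM E (row FIN).  For every `ε > 0` there is `C` such that for all `N` at most `C N^ε` pairs
`(f, g)` of coprime integers of opposite parity, `g + 1 < f ≤ N`, have a solution.

Part A (this file): closeness.  One of the two summands is `W^w` with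
`A^z - W^w ≤ (W^w)^(43/50)`.  Part B (`StmtsB.lean`): interpolation determinants, `w ≤ (log f)^24`.
Part C (`StmtsC.lean`): counting for fixed `(w, z)`.  Part D (`StmtsD.lean`): fixed exponents.
`PinStmt` is `Pool.Agent.SHP.PinStmt` (proved).
-/

set_option autoImplicit false

namespace Pool.Agent.MNE

open Finset

/-- solution of the equation with `f - g > 1` -/
structure Sol (f g x y z : ℕ) : Prop where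
  hg : 0 < g
  hd : g + 1 < f
  co : Nat.Coprime f g
  odd : Odd (f + g)
  hx : 0 < x
  hy : 0 < y
  hz : 0 < z
  eq : (f ^ 2 + g ^ 2) ^ x + (2 * f * g) ^ y = (f ^ 2 - g ^ 2) ^ z

/-- base of the dominant summand, `true` for `C`, `false` for `B` -/
def Wb (τ : Bool) (f g : ℕ) : ℕ := if τ then f ^ 2 + g ^ 2 else 2 * f * g

/-- exponent of the dominant summand -/
def wb (τ : Bool) (x y : ℕ) : ℕ := if τ then x else y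

/-- `A^z = W^w + S`, `0 < S ≤ (W^w)^(43/50)`, all bases between `f` and `2 f²` -/
structure Near (f A W z w : ℕ) : Prop where
  lt : W ^ w < A ^ z
  le : (A ^ z - W ^ w) ^ 50 ≤ (W ^ w) ^ 43
  hA : f ≤ A
  hA' : A ≤ f ^ 2
  hW : f ≤ W
  hW' : W ≤ 2 * f ^ 2
  co : Nat.Coprime A W
  hz : z ≤ 3 * w
  hw : w ≤ 3 * z

/-- Row BAS (elementary).  Write `s = f + g`, `d = f - g ≥ 3` (odd and `> 1`).
(1) `x ≠ y`: modulo `d`, `C = B + d²`, so `C^x + B^x ≡ 2 B^x`, and `d ∣ A`, `d` is odd, coprime to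
`B` (`d` is coprime to `2 f g`), `d ≥ 3`.
(2) `A = s d ≥ 3 f`, `B < A`... is NOT claimed; `A < C`, `B < C` (`C - B = d²`), `x < z` because
`A^x < C^x < A^z`; `z < 2 max x y`: `(3f)^z ≤ A^z ≤ 2 (2f²)^max < (9 f²)^max`.
(3) coprimality: `gcd(A, B) = gcd(A, C) = gcd(B, C) = 1`, `gcd(s, B) = gcd(s, C) = gcd(d, B) = 1`,
`gcd(f, A) = gcd(f, C) = 1`. -/
def BasStmt : Prop := ∀ f g x y z : ℕ, Sol f g x y z →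
  x ≠ y ∧ x < z ∧ z < 2 * max x y ∧ 3 ≤ f - g ∧ 3 * f ≤ f ^ 2 - g ^ 2 ∧
  2 * f * g < f ^ 2 + g ^ 2 ∧ f ^ 2 - g ^ 2 < f ^ 2 + g ^ 2 ∧
  f ^ 2 - g ^ 2 = (f + g) * (f - g) ∧ (f ^ 2 + g ^ 2) + 2 * f * g = (f + g) ^ 2 ∧
  (f ^ 2 + g ^ 2) + (f ^ 2 - g ^ 2) = 2 * f ^ 2 ∧
  Nat.Coprime (f ^ 2 - g ^ 2) (f ^ 2 + g ^ 2) ∧ Nat.Coprime (f ^ 2 - g ^ 2) (2 * f * g) ∧
  Nat.Coprime (f ^ 2 + g ^ 2) (2 * f * g) ∧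
  Nat.Coprime (f + g) (f ^ 2 + g ^ 2) ∧ Nat.Coprime (f + g) (2 * f * g) ∧
  Nat.Coprime f (f ^ 2 + g ^ 2) ∧ Nat.Coprime f (f ^ 2 - g ^ 2) ∧
  Nat.Coprime (f - g) (2 * f * g)

/-- Row CLI (from PIN of SHP).  PIN with `(N, n, M, b, U, V) = (n, k, b1, -s², 1, (-1)^(n+1) b1^(m-n))`
(so `M + b = b1 - s² = -b2`): there are `P, Q` with `I := (-1)^(n+1) Q b1^(m-n) - P ≠ 0` and
`Q (-b2)^n - P b1^n = s^(4k) K`.  `b2^n ≡ - b1^m (mod s^(4k))` because `4k ≤ z`.  Hence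
`b1^n I ≡ 0 (mod s^(4k))`, `s` coprime to `b1`, so `s^(4k) ≤ |I|`.  With `ρ = s²/b1 ≥ 1`:
`|P|, |Q| ≤ 4^k b1^k ρ^k (1 + 1)^(n+k) = 4^k s^(2k) 2^(n+k)`.  So
`s^(4k) ≤ 2 b1^(m-n) 8^k 2^n s^(2k)`. -/
def CliStmt : Prop := ∀ (b1 b2 s : ℤ) (m n z k : ℕ), 0 < b1 → 0 < b2 → 0 < s → b1 + b2 = s ^ 2 →
  IsCoprime s b1 → n < m → 1 ≤ k → k + 1 ≤ n → 4 * k ≤ z → s ^ z ∣ b1 ^ m + b2 ^ n →
  s ^ (2 * k) ≤ 2 * b1 ^ (m - n) * 8 ^ k * 2 ^ n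

/-- Row CLF (from PIN of SHP).  PIN with `(N, n, M, b, U, V) = (x, k, c, -2f², a^(z-x), (-1)^x)`,
`M + b = c - 2f² = -a`: `I := (-1)^x Q - P a^(z-x) ≠ 0`, `Q (-a)^x - P c^x = (2f²)^(2k) K`.
`c^x ≡ a^z (mod f^(4k))`, so `a^x I ≡ 0 (mod f^(4k))`, `f` coprime to `a`, `f^(4k) ≤ |I| ≤
2 a^(z-x) max(|P|, |Q|)`. -/
def ClfStmt : Prop := ∀ (a c f : ℤ) (x y z k : ℕ), 0 < a → 0 < c → 0 < f → a + c = 2 * f ^ 2 →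
  IsCoprime f a → 1 ≤ k → k + 1 ≤ x → x ≤ z → 4 * k ≤ y → f ^ y ∣ a ^ z - c ^ x →
  ∀ ρ : ℝ, 1 ≤ ρ →
  (f : ℝ) ^ (4 * k) ≤ 2 * (a : ℝ) ^ (z - x) * (4 ^ k * (c : ℝ) ^ k * ρ ^ k *
    (1 + 2 * (f : ℝ) ^ 2 / (c * ρ)) ^ (x + k))

/-- Row RG1 (region I, `C^15 < B^16`; from BAS, CLI).  `m = max x y`, `n = min x y`, `b1` the base of
the exponent `m`, `b2` the other one.  Claim `b2^n ≤ (b1^m)^(43/50)`.  Otherwise, as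
`log b2 ≤ log C`, `log b1 ≥ (15/16) log C`: `n > (43/50)(15/16) m = 0.80625 m`.  `A^z > b1^m`,
`A < C`, so `z > (15/16) m = 0.9375 m`.  `k = ⌊0.23 m⌋`: `4k ≤ z`, `k + 1 ≤ n`.  CLI (`s ∣ A`), and
`b1 ≤ s²`: `2k log s ≤ log 2 + 2 (m-n) log s + k log 8 + n log 2`, i.e.
`(0.46 m - 2) log s ≤ 0.7 + 0.3875 m log s + 0.23·2.08 m + 0.7 m`, so
`(0.0725 m - 2) log s ≤ 0.7 + 1.18 m`; false for `m ≥ 100`, `log s ≥ 25`.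
(Use `s ≥ f ≥ 10^11`.) -/
def Rg1Stmt : Prop := ∀ f g x y z : ℕ, Sol f g x y z → 10 ^ 11 ≤ f → 100 ≤ max x y →
  (f ^ 2 + g ^ 2) ^ 15 < (2 * f * g) ^ 16 →
  (y < x → ((2 * f * g) ^ y) ^ 50 ≤ ((f ^ 2 + g ^ 2) ^ x) ^ 43) ∧
  (x < y → ((f ^ 2 + g ^ 2) ^ x) ^ 50 ≤ ((2 * f * g) ^ y) ^ 43)

/-- Row RG2 (region II, `B^16 ≤ C^15`, `B^y ≤ C^x`; from BAS, CLF).  Claim `B^y ≤ (C^x)^(43/50)` and
`y ≤ x`.  `2fg ≤ (2f²)^(15/16)`, so `g ≤ f^(7/8)` and `2g²/A ≤ 4 f^(-1/4)`, tiny.  If the claim fails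
`y log B > 0.86 x log C` so `y > 0.917 x`.  `A^z = C^x + B^y ≤ 2 C^x`, so
`A^(z-x) ≤ 2 (C/A)^x ≤ 2 · 1.01^x`.  `k = ⌊0.2 x⌋` (`4k ≤ y`, `k + 1 ≤ x`, `x < z`), `ρ = 16`,
`c = C ≤ 2f²`, `2f²/(16 C) ≤ 1/8`: CLF gives
`f^(4k) ≤ 4 · 1.01^x · 4^k (2f²)^k 16^k · (9/8)^(x+k)`, i.e.
`2k log f ≤ log 4 + 0.01 x + k log 128 + 0.118 (x + k)`: false for `x ≥ 100`, `f ≥ 10^11`
(`k ≥ 0.2 x - 1`).  If `y > x` then ... also `y > 0.917 x`, the same contradiction; so first the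
contradiction shows `B^y ≤ (C^x)^(43/50)` without using `y ≤ x`.  (`100 ≤ max x y` and
`B^y ≤ C^x`: if `x < 100 ≤ y` then `B^y ≥ (2f)^100 > ... `; note that `x ≥ 50` always holds, because
`(2f)^y ≤ B^y ≤ C^x ≤ (2f²)^x` gives `y ≤ 2x`; the estimate above is true for all `x ≥ 50`.) -/
def Rg2Stmt : Prop := ∀ f g x y z : ℕ, Sol f g x y z → 10 ^ 11 ≤ f → 100 ≤ max x y →
  (2 * f * g) ^ 16 ≤ (f ^ 2 + g ^ 2) ^ 15 → (2 * f * g) ^ y ≤ (f ^ 2 + g ^ 2) ^ x →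
  ((2 * f * g) ^ y) ^ 50 ≤ ((f ^ 2 + g ^ 2) ^ x) ^ 43

/-- Row RG3 (region II, `B^16 ≤ C^15`, `C^x ≤ B^y`; from BAS, CLF).  `g ≤ f^(7/8)` as in RG2, so
`C ≤ 1.1 A`, `A ≤ f²`.  `B^y ≥ A^z/2`; `B ≤ C^(15/16) ≤ A/2`, so `y ≤ z` would give
`B^y ≤ (A/2)^z`, `B^y < A^z/2` (`z ≥ 2`): contradiction, `y > z`; `z ≥ 50` because `B^y < A^z`,
`(2f)^y ≤ f^(2z)`, `y ≤ 2z`, and `y > z > x` gives `y = max`.
If `C^x > (B^y)^(43/50) ≥ (A^z/2)^0.86` then `x (log A + 0.1) ≥ 0.86 (z log A - log 2)`, so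
`x ≥ 0.855 z - 1`.  `k = ⌊z/4⌋` (`k + 1 ≤ x`, `4k ≤ z ≤ y`), CLF with `ρ = 1`, `c = C ≥ f²`
(`2f²/C ≤ 2`): `f^(4k) ≤ 2 A^(z-x) 4^k (2 f²)^k 3^(x+k)`, `A ≤ f²`:
`2k log f ≤ log 2 + 2 (z - x) log f + k log 24 + x log 3`, with `k ≥ z/4 - 1`, `x ≤ z`:
`(0.5 z - 2) log f ≤ 0.7 + (0.29 z + 2) log f + 0.8 z + 1.1 z`, false for `z ≥ 50`, `log f ≥ 25`. -/
def Rg3Stmt : Prop := ∀ f g x y z : ℕ, Sol f g x y z → 10 ^ 11 ≤ f → 100 ≤ max x y →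
  (2 * f * g) ^ 16 ≤ (f ^ 2 + g ^ 2) ^ 15 → (f ^ 2 + g ^ 2) ^ x ≤ (2 * f * g) ^ y →
  ((f ^ 2 + g ^ 2) ^ x) ^ 50 ≤ ((2 * f * g) ^ y) ^ 43

/-- Row CLO (from BAS, RG1, RG2, RG3).  Choose `τ` (region I: the larger exponent; region II: the
larger summand).  `Near`: `A^z - W^w` is the other summand.  `hA`, `hW`, `hW'` clear (BAS).
`z ≤ 3w`: `(3f)^z ≤ A^z ≤ 2 W^w ≤ 2 (2f²)^w < (3f)^(2w)`, (`S ≤ W^w` follows from `le`), so `z < 2w`;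
`w ≤ 2z` because `f^w ≤ W^w < A^z ≤ f^(2z)`.  `50 ≤ w`: if `w` is the maximum it is `≥ 100`;
otherwise (region II) `max ≤ 2w` as in RG2 (`z ≤ 2w`, and for `τ = false` one has `y > z > x`). Use:
`w < 50` would give `z < 100`, `x < z`, and `(2f)^y ≤ B^y ≤ A^z ≤ f^(2z)`... simply:
`max x y ≤ 4 w` (any constant is fine: `f^(max) ≤ (C^x or B^y) ≤ A^z ≤ f^(2z) ≤ f^(4w)`). -/
def CloStmt : Prop := ∀ f g x y z : ℕ, Sol f g x y z → 10 ^ 11 ≤ f → 100 ≤ max x y →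
  ∃ τ : Bool, Near f (f ^ 2 - g ^ 2) (Wb τ f g) z (wb τ x y) ∧ max x y ≤ 4 * wb τ x y

/-- Row GCD.  `k = gcd(z, w) ≥ 8`, `a = A^(z/k) > b = W^(w/k)`, `a^k - b^k ≥ (b+1)^k - b^k ≥ k b^(k-1)
> b^(k-1)`, so `(A^z - W^w)^50 > b^(50 (k-1)) ≥ b^(43 k)` as `50 (k-1) ≥ 43 k` for `k ≥ 8`
(`b ≥ 1`). -/
def GcdStmt : Prop := ∀ f A W z w : ℕ, 2 ≤ f → 0 < w → Near f A W z w → Nat.gcd z w ≤ 7

end Pool.Agent.MNE
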