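import Pool.Agent.MNE.StmtsA

/-!
# MP_d2d93c_nt, THEOREM E, part B: interpolation determinants and the two-logarithm bound

Everything here is elementary; only TWO uses `Near`.
-/

set_option autoImplicit false

namespace Pool.Agent.MNE

open Finset

/-- Row UBF (upper bound, polynomials; only Mathlib).  Expand the rows
(`Matrix.detRowAlternating.map_sum`, or `Matrix.det_apply` and `Finset.prod_univ_sum`):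
`det = ∑ φ : Fin D → Fin T, (∏ i, a i (φ i)) * det (x j ^ φ i)`.  If `φ` is not injective two rows
are equal and the determinant is `0`; if `φ` is injective then `∑ φ i ≥ D (D-1) / 2` and
`|det (x j ^ φ i)| ≤ D! ∏ r ^ φ i`, so
`ρ^(D(D-1)/2) |term| ≤ D! ∏ |a i (φ i)| (ρ r)^(φ i)`.  Sum over all `φ`. -/
def UbfStmt : Prop := ∀ (D T : ℕ) (a : Fin D → ℕ → ℝ) (x : Fin D → ℝ) (r ρ : ℝ), 0 ≤ r → 1 ≤ ρ →
  (∀ j, |x j| ≤ r) →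
  ρ ^ (D * (D - 1) / 2) *
    |Matrix.det (Matrix.of fun i j : Fin D => ∑ n ∈ range T, a i n * x j ^ n)| ≤
  (Nat.factorial D : ℝ) * ∏ i : Fin D, ∑ n ∈ range T, |a i n| * (ρ * r) ^ n

/-- Row UBE (from UBF).  `x^k e^(bx) = ∑ n, a n x^n` with `a n = b^(n-k)/(n-k)!` for `n ≥ k`, `0`
otherwise; `∑ |a n| (ρ r)^n = (ρ r)^k e^(b ρ r)`.  Limit `T → ∞` in UBF
(`Continuous.matrix_det`, `NormedSpace.expSeries` / `Real.hasSum_exp` after `b^j x^j / j!`). -/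
def UbeStmt : Prop := ∀ (D : ℕ) (k : Fin D → ℕ) (b x : Fin D → ℝ) (r ρ : ℝ), 0 ≤ r → 1 ≤ ρ →
  (∀ i, 0 ≤ b i) → (∀ j, |x j| ≤ r) →
  ρ ^ (D * (D - 1) / 2) *
    |Matrix.det (Matrix.of fun i j : Fin D => x j ^ k i * Real.exp (b i * x j))| ≤
  (Nat.factorial D : ℝ) * ∏ i : Fin D, ((ρ * r) ^ k i * Real.exp (b i * (ρ * r)))

/-- Row PER (perturbation of a determinant; only Mathlib).  Difference of the expansions: for each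
permutation `|∏ a (1 + δ) - ∏ a| ≤ ∏ E · ((1 + δ)^D - 1) ≤ ∏ E · 2^D δ` (`δ ≤ 1`). -/
def PerStmt : Prop := ∀ (D : ℕ) (a e : Fin D → Fin D → ℝ) (E : Fin D → ℝ) (δ : ℝ), 0 ≤ δ → δ ≤ 1 →
  (∀ i j, |a i j| ≤ E i) → (∀ i j, |e i j| ≤ δ) →
  |Matrix.det (Matrix.of fun i j : Fin D => a i j * (1 + e i j)) - Matrix.det (Matrix.of a)| ≤
    (Nat.factorial D : ℝ) * (∏ i, E i) * 2 ^ D * δ

/-- Row MIN (only Mathlib).  If the rows `a i` are linearly independent, the matrix has rank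
`card ι`, so some `card ι` columns are linearly independent
(`exists_linearIndependent'`, `Matrix.rank`, or induction). -/
def MinStmt : Prop := ∀ (ι J : Type) [Fintype ι] [DecidableEq ι] [Fintype J] (a : ι → J → ℝ),
  (∀ c : ι → ℝ, (∀ j, ∑ i, c i * a i j = 0) → c = 0) →
  ∃ e : ι → J, Matrix.det (Matrix.of fun i i' : ι => a i (e i')) ≠ 0

/-- Row ZER (zero estimate; only Mathlib).  `P_m(ξ) = ∑ k, p k m ξ^k`.  Suppose `p ≠ 0`;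
`𝓜 = {m | P_m ≠ 0}`, `L' = 𝓜.card ≥ 1`, `d_m = deg P_m`, `l_m ≠ 0` the leading coefficient.
`M(ξ) = (P_m(ξ + i w) A^(i m))`, rows `i < L'`, columns `m ∈ 𝓜`.  For `r ≤ R - L`, `s < R`,
`ξ = r w + s z`, `Y = A^r W^s > 0`: the hypothesis at `(r + i, s)` says
`∑_m P_m(ξ + i w) A^(i m) Y^m = 0`, so `det M(ξ) = 0`.  `det M(ξ)` is a polynomial in `ξ` of degree
`≤ (K-1) L` with at least `(R - L) R > (K-1) L` zeros (`hinj`), so it is `0`.  But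
`det M(ξ) / ξ^(∑ d_m) → ∏ l_m · det (A^(i m)) ≠ 0` for `ξ → ∞` (divide column `m` by `ξ^(d_m)`; the
entries converge; `Matrix.det_vandermonde` with the distinct numbers `A^m`). -/
def ZerStmt : Prop := ∀ (K L R w z A W : ℕ) (p : Fin K → Fin L → ℝ), 2 ≤ A → 1 ≤ W → 0 < w →
  L ≤ R → (K - 1) * L < (R - L) * R →
  (∀ r s r' s' : ℕ, r < R → s < R → r' < R → s' < R → r * w + s * z = r' * w + s' * z →
    r = r' ∧ s = s') →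
  (∀ r s : ℕ, r < R → s < R →
    ∑ k : Fin K, ∑ m : Fin L, p k m * (((r * w + s * z : ℕ) : ℝ) ^ (k : ℕ) *
      ((A : ℝ) ^ ((m : ℕ) * r) * (W : ℝ) ^ ((m : ℕ) * s))) = 0) →
  p = 0

/-- Row TWO (from UBE, PER, MIN, ZER, GCD).  A weak bound for a linear form in two logarithms.
Suppose `w > λ^24`, `λ = log f`, `w ≥ w0`.  Let `N^48 ≤ w < (N+1)^48` (so `λ < (N+1)² ≤ 4 N²`),
`ρ = N^3`, `K = N^16`, `L = 64`, `R = 12 N^8`, `D = K L`.  `Λ = z log A - w log W =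
log(1 + S/W^w) ∈ (0, (W^w)^(-7/50)]`, `Λ ≤ e^(-0.14 w λ)`.  `β = log A / w`, `log A ≤ 2 λ`,
`log W = β z - Λ/w`.  Integral matrix: rows `(k, m)`, columns `(r, s)`, `ξ = r w + s z ≤ 4 R w`:
`ξ^k A^(m r) W^(m s) = ξ^k e^(m β ξ) · e^(-m s Λ / w)`.
ZER (distinct: `r w + s z = r' w + s' z` gives `w / gcd ∣ s - s'`, `w / gcd ≥ w/7 ≥ R`;
`(K-1) L < (R - 64) R`) and MIN: some `D`-minor is not `0`, it is an integer, so `≥ 1`.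
UBE with `r0 = 4 R w`: `b_m ρ r0 ≤ 64 (2λ/w) ρ 4 R w = 8 L R λ ρ`:
`|det (ξ^k e^(m β ξ))| ≤ D! ρ^(-D(D-1)/2) ((4 R w ρ)^K e^(8 L R λ ρ))^D < 1/2`: per factor
`(D-1)/2 · log ρ ≈ 96 N^16 log N` against `log D + K log(4 R w ρ) + 8 L R λ ρ ≤
N^16 (59 log N + 5) + 24576 N^13 + ..`.
PER, `δ = 64 R Λ`, `E = (4 R w)^K e^(8 L R λ)`: `D! E^D 2^D δ < 1/2`, since
`D log D + D K log(4 R w) + 8 D L R λ + .. ≤ 5000 N^32 log N + 2·10^6 N^26 + ..` against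
`0.14 w λ ≥ 0.09 N^48`.  So the minor is `< 1`: contradiction.  (All for `N` large.) -/
def TwoStmt : Prop := ∃ w0 : ℕ, ∀ f A W z w : ℕ, 2 ≤ f → w0 ≤ w → Near f A W z w →
  (w : ℝ) ≤ Real.log f ^ 24

/-! ### Part C: counting for fixed `(w, z)` -/

/-- Row INJ (exponential sums; only Mathlib).  Induction on `D`.  `D = 0`:
`|c| e^(ω μ) ≤ τ`, `|c| ≤ τ e^Ω`.  Step: `g(μ) = ∑ c_i e^((ω_i - ω_0) μ)`, `|g(μ_k)| ≤ τ e^Ω`;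
`g'(ν) = ∑_(i ≥ 1) c_i (ω_i - ω_0) e^((ω_i - ω_0) ν)`.  Mean value theorem on
`(μ_(2j), μ_(2j+1))`: `|g'(ν_j)| ≤ 2 τ e^Ω / δ`, and `ν_(j+1) - ν_j ≥ μ_(2j+2) - μ_(2j+1) ≥ δ`.
Induction for the `D` frequencies `ω_i - ω_0 ∈ [0, Ω]`: `|c_i| γ ≤ |c_i (ω_i - ω_0)| ≤
(2 τ e^Ω/δ) (2 D e^(2Ω)/(γδ))^D`, and `|c_0| ≤ τ e^Ω + e^Ω ∑_(i≥1) |c_i|`. -/
def InjStmt : Prop := ∀ (D : ℕ) (ω c : Fin (D + 1) → ℝ) (μ : Fin (2 ^ D) → ℝ) (γ δ τ Ω : ℝ),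
  0 < γ → γ ≤ 1 → 0 < δ → δ ≤ 1 → 0 ≤ τ → 0 ≤ Ω → (∀ i j, i < j → ω i + γ ≤ ω j) →
  (∀ i, 0 ≤ ω i ∧ ω i ≤ Ω) → (∀ k, |μ k| ≤ 1) → (∀ k k', k < k' → μ k + δ ≤ μ k') →
  (∀ k, |∑ i, c i * Real.exp (ω i * μ k)| ≤ τ) →
  ∀ i, |c i| ≤ τ * (2 * (D + 1) * Real.exp (2 * Ω) / (γ * δ)) ^ (D + 1)

/-- Row DIS.  `W < W'`: `W'^w - W^w ≥ w W^(w-1) > W^(w-1)`, but
`W'^w - W^w ≤ A^z - W^w ≤ (W^w)^(43/50)`, so `50 (w-1) < 43 w`, `w ≤ 7`.  (`W ≥ f ≥ 2`.) -/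
def DisStmt : Prop := ∀ f f' A W W' z w : ℕ, 2 ≤ f → 2 ≤ f' → 8 ≤ w → Near f A W z w →
  Near f' A W' z w → W = W'

/-- Row ARC (from UBE, PER, MIN, INJ, GCD, DIS).  `D = m²`, `κ = z / w ≤ 3`, `η = N^(-7/m)`.
Suppose `E` has more than `2^(m²)` elements.  `λ_p = log p.1`, `λ0` the smallest, `μ_p = λ_p - λ0 ∈
[0, η]`.  By DIS different elements have different `A ≤ N²`, so the `μ_p` differ by at least `1/N²`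
(`log a' - log a ≥ (a' - a)/a'`).  `log W = κ log A - Λ/w`, `0 < Λ ≤ (W^w)^(-7/50) ≤
f^(-0.14 w) ≤ N^(-0.14 θ w)`.  Frequencies `ω = i + j κ`, `i, j < m`: `0 ≤ ω ≤ 4m`, different ones
differ by at least `1/w` (`w (i - i') = - z (j - j')` implies `w/gcd ∣ j - j'`, `w/gcd ≥ w/7 ≥ m`).
Entries `A^i W^j = e^(ω λ0) e^(ω μ) (1 + e)`, `|e| ≤ m Λ`, `e^(ω λ0) ≤ (4 N²)^(i+j)` since
`A^κ ≤ 2 W`.
(1) Every `D`-minor (columns in `E`) is an integer of absolute value `< 1`, so `0`: UBE with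
`k = 0`, `b = ω`, `x = μ`, `r = η`, `ρ = 1/η` gives
`≤ D! η^(D(D-1)/2) e^(4 m D) (4 N²)^(m²(m-1))`, exponent of `N`:
`-7/m · m²(m²-1)/2 + 2 m² (m-1) = - m (m-1) (1.5 m + 3.5) < 0`; PER:
`≤ D! ((4N²)^(2m) e^(4m))^D 2^D m N^(-0.14 θ w)`.
(2) MIN: there is `c ≠ 0` with `∑ c_(ij) A^i W^j = 0` on `E`; scale so that the largest
`|c_(ij) e^(ω λ0)|` is `1`.  Then `|∑ c' e^(ω μ_p)| ≤ D e^(4m) m N^(-0.14 θ w) =: τ` for all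
`p ∈ E`.  INJ with `γ = 1/w`, `δ = 1/N²`, `Ω = 4m`, `2^(D-1)` of the points:
`1 ≤ τ (2 D e^(8m) w N²)^D`.  False if `w ≥ Z0(m, θ)`, `N ≥ 2`. -/
def ArcStmt : Prop := ∀ (m : ℕ) (θ : ℝ), 2 ≤ m → 0 < θ → ∃ Z0 N0 : ℕ, ∀ N w z : ℕ, N0 ≤ N →
  Z0 ≤ w → ∀ E : Finset (ℕ × ℕ),
  (∀ p ∈ E, ∃ f : ℕ, 2 ≤ f ∧ (N : ℝ) ^ θ ≤ f ∧ f ≤ N ∧ Near f p.1 p.2 z w) →
  (∀ p ∈ E, ∀ q ∈ E, |Real.log p.1 - Real.log q.1| ≤ (N : ℝ) ^ (-(7 / m : ℝ))) →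
  E.card ≤ 2 ^ (m ^ 2)

/-- Row CNT (from ARC).  `log A ∈ [0, 2 log N]` is covered by at most `2 log N · N^(7/m) + 1`
intervals of length `N^(-7/m)`; `(2 log N · N^(7/m) + 1) 2^(m²) ≤ C0 N^(8/m)`.  For `N < N0` the set
is contained in `[0, N0²] × [0, 2 N0²]`. -/
def CntStmt : Prop := ∀ (m : ℕ) (θ : ℝ), 2 ≤ m → 0 < θ → ∃ (Z0 : ℕ) (C0 : ℝ), ∀ N w z : ℕ, 1 ≤ N →
  Z0 ≤ w →
  {p : ℕ × ℕ | ∃ f : ℕ, 2 ≤ f ∧ (N : ℝ) ^ θ ≤ f ∧ f ≤ N ∧ Near f p.1 p.2 z w}.Finite ∧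
  ({p : ℕ × ℕ | ∃ f : ℕ, 2 ≤ f ∧ (N : ℝ) ^ θ ≤ f ∧ f ≤ N ∧ Near f p.1 p.2 z w}.ncard : ℝ) ≤
    C0 * (N : ℝ) ^ (8 / m : ℝ)

end Pool.Agent.MNE
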