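import Pool.Agent.MNE.StmtsB

/-!
# MP_d2d93c_nt, THEOREM E, part D: for fixed exponents there are finitely many solutions, and the
final row.

Everything in part D is elementary.  `E1`: after the substitutions `(X, Y) = (f+g, f-g)` or `(f, g)`
every family of solutions with fixed exponents is
`κ X^q Y^q = (X² + σ Y²)^M + c (X² - σ Y²)^n`, `n < M < q < 2M`.  For an infinite family
`κ Y^q ~ X^(2M-q)`.  Runge's method: `(U, T) = (X, Y)` (`h = 2`, `q` odd) or `(X², Y²)` (`h = 1`,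
`q` even), `P + Q = h M`, `κ T^Q ~ U^P`, `gcd(P, Q) = 1`.
-/

set_option autoImplicit false

namespace Pool.Agent.MNE

open Finset Filter Topology

/-- parameters of the normalised equation -/
structure Par (κ c σ : ℤ) (M n q : ℕ) : Prop where
  hn : 0 < n
  hnM : n < M
  hMq : M < q
  hq : q < 2 * M
  hσ : σ = 1 ∨ σ = -1
  hκ : (κ = 2 ^ M ∧ c = 2 ^ (M - n)) ∨ (κ = 2 ^ q ∧ c = -1)

/-- solutions of the normalised equation -/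
structure E1 (κ c σ : ℤ) (M n q X Y : ℕ) : Prop where
  hY : 0 < Y
  hYX : Y < X
  co : Nat.Coprime X Y
  eq : κ * (X : ℤ) ^ q * (Y : ℤ) ^ q =
    ((X : ℤ) ^ 2 + σ * (Y : ℤ) ^ 2) ^ M + c * ((X : ℤ) ^ 2 - σ * (Y : ℤ) ^ 2) ^ n

/-- Row YEZ (from BAS).  `y = z`.  `C^x = A^z - B^z > 0`, so `A > B`, `A - B ∣ C^x`, and
`gcd(A - B, C) = 1` (`C² = A² + B²`, a common prime divides `2A²`, `C` is odd, `gcd(A, C) = 1`), so
`A = B + 1`, `C² = 2B² + 2B + 1` and `(2B²+2B+1)^x = ((B+1)^z - B^z)²`.  The polynomial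
`(2X²+2X+1)^x - ((X+1)^z - X^z)²` is not `0`: at `X = -1/2` the first term is `2^(-x)`, the second
one `0` (`z` even) or `2^(2-2z)` (`z` odd), and `0 < x < z` so `x ≠ 2z - 2`.  So finitely many `B`,
and `f, g ≤ B`. -/
def YezStmt : Prop := ∀ x z : ℕ, {p : ℕ × ℕ | Sol p.1 p.2 x z z}.Finite

/-- Row RED (from BAS, YEZ).  Suppose infinitely many solutions for fixed `x, y, z`.  `x < z`,
`x ≠ y`, `z < 2 max x y` (BAS), `y ≠ z` (YEZ).  `y < x`: `M = x, n = y, q = z, σ = 1`, multiply by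
`2^x`.  `x < y < z`: `M = y, n = x, q = z, σ = -1`, multiply by `2^y`; in both cases
`(X, Y) = (f+g, f-g)`, `2C = X² + Y²`, `2B = X² - Y²`, `A = X Y`.  `z < y`: `(X, Y) = (f, g)`,
`M = z, n = x, q = y, κ = 2^y, c = -1, σ = -1`; `y < 2z` because `(2f)^y ≤ B^y < A^z ≤ f^(2z)`. -/
def RedStmt : Prop := ∀ x y z : ℕ, {p : ℕ × ℕ | Sol p.1 p.2 x y z}.Infinite →
  ∃ (κ c σ : ℤ) (M n q : ℕ), Par κ c σ M n q ∧ {p : ℕ × ℕ | E1 κ c σ M n q p.1 p.2}.Infinite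

/-- the filter at infinity on a set of pairs -/
def lim (S : Set (ℕ × ℕ)) : Filter (ℕ × ℕ) := cofinite ⊓ 𝓟 S

/-- Row ASY.  For each bound there are finitely many `(X, Y) ∈ S` with `X` below it (`Y < X`).
`|κ| X^q Y^q ≤ (2X²)^M + |c| (2X²)^n ≤ (2^M + |c| 2^n) X^(2M)`, so
`(Y/X)^q ≤ const · X^(2M-2q) → 0`.  Divide the equation by `X^(2M)`. -/
def AsyStmt : Prop := ∀ (κ c σ : ℤ) (M n q : ℕ) (S : Set (ℕ × ℕ)), Par κ c σ M n q → S.Infinite →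
  (∀ p ∈ S, E1 κ c σ M n q p.1 p.2) →
  (lim S).NeBot ∧ Tendsto (fun p : ℕ × ℕ => (p.1 : ℝ)) (lim S) atTop ∧
  Tendsto (fun p : ℕ × ℕ => (p.2 : ℝ) / p.1) (lim S) (𝓝 0) ∧
  Tendsto (fun p : ℕ × ℕ => (κ : ℝ) * (p.2 : ℝ) ^ q / (p.1 : ℝ) ^ (2 * M - q)) (lim S) (𝓝 1)

/-- Row FVA (from ASY).  `p = 2M - q`, `b = X² - σ Y²`, `X² + σ Y² = 2X² - b`.  Suppose `2n > p`,
`j0 = p/2 + 1 ≤ n` (`2 j0 ≥ p + 1`).  `(2X² - b)^M = ∑ C(M,j) (2X²)^(M-j) (-b)^j`; for `j < j0`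
`X^q ∣ X^(2(M-j))`.  `J := κ Y^q - ∑_(j<j0) C(M,j) 2^(M-j) (-b)^j X^(p-2j)` is an integer and
`X^q J = ∑_(j≥j0) C(M,j) (2X²)^(M-j) (-b)^j + c b^n` is divisible by `b^j0`, coprime to `X`; so
`b^j0 ∣ J`.  `|J| ≤ const X^p`, `|b^j0| ≥ X^(2 j0)/2 ≥ X^(p+1)/2` (`b/X² → 1`): `J = 0` eventually.
Divide the right side by `X^(2M)`: in the limit
`∑_(j≥j0) C(M,j) 2^(M-j) (-1)^j = 0` (`n < M`): false, the term `j = M` is `±1`, the others are even.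
-/
def FvaStmt : Prop := ∀ (κ c σ : ℤ) (M n q : ℕ) (S : Set (ℕ × ℕ)), Par κ c σ M n q → S.Infinite →
  (∀ p ∈ S, E1 κ c σ M n q p.1 p.2) → 2 * n ≤ 2 * M - q

/-- Row FVB (from ASY).  `k = gcd(M, q) ≥ 2`: `κ X^q Y^q = a^k` (`κ = 2^M` or `2^q`),
`(X² + σY²)^M = b^k`, `b = (X²+σY²)^(M/k) > 0`, `a > 0` integers, `a ≠ b` because
`c (X² - σ Y²)^n ≠ 0`.  `|a^k - b^k| ≥ b^(k-1) ≥ (X²/2)^(M(k-1)/k) ≥ (X²/2)^(M/2)`, while
`|c (X²-σY²)^n| ≤ |c| (2X²)^n`, `2n ≤ 2M - q < M`: contradiction for large `X`. -/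
def FvbStmt : Prop := ∀ (κ c σ : ℤ) (M n q : ℕ) (S : Set (ℕ × ℕ)), Par κ c σ M n q → S.Infinite →
  (∀ p ∈ S, E1 κ c σ M n q p.1 p.2) → 2 * n ≤ 2 * M - q → Nat.Coprime M q

/-- parameters for Runge's method -/
structure Br (h M n P Q : ℕ) (σ c κ : ℚ) : Prop where
  hh : h = 1 ∨ (h = 2 ∧ Odd P ∧ Odd Q)
  hP : 0 < P
  hPQ : P < Q
  hM : h * M = P + Q
  hn0 : 0 < n
  hn : h * n ≤ P
  co : Nat.Coprime P Q
  hσ : σ = 1 ∨ σ = -1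
  hκ : 0 < κ

open Polynomial in
/-- `(U^h + σ T^h)^M + c (U^h - σ T^h)^n - κ U^Q T^Q`; the outer variable is `T` -/
noncomputable def Fp (h M n Q : ℕ) (σ c κ : ℚ) : (ℚ[X])[X] :=
  (C (X ^ h) + C (C σ) * X ^ h) ^ M + C (C c) * (C (X ^ h) - C (C σ) * X ^ h) ^ n
    - C (C κ * X ^ Q) * X ^ Q

/-- a branch at infinity with integral points: `κ T^Q ~ U^P` -/
structure Lim (h M n P Q : ℕ) (σ c κ : ℚ) (l : Filter (ℕ × ℕ)) : Prop where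
  ne : l.NeBot
  U : Tendsto (fun p : ℕ × ℕ => (p.1 : ℝ)) l atTop
  T : Tendsto (fun p : ℕ × ℕ => (κ : ℝ) * (p.2 : ℝ) ^ Q / (p.1 : ℝ) ^ P) l (𝓝 1)
  F : ∀ᶠ p : ℕ × ℕ in l, (Fp h M n Q σ c κ).evalEval (p.1 : ℚ) (p.2 : ℚ) = 0

/-- Row BRA (from ASY, FVA, FVB).  `q` odd: `h = 2`, `Q = q`, `P = 2M - q`, `l = lim S`.
`q` even: `h = 1`, `Q = q/2`, `P = M - q/2`, `l = map (fun p => (p.1², p.2²)) (lim S)`.
`gcd(P, Q) = 1` from `gcd(M, q) = 1`. -/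
def BraStmt : Prop := ∀ (κ c σ : ℤ) (M n q : ℕ) (S : Set (ℕ × ℕ)), Par κ c σ M n q → S.Infinite →
  (∀ p ∈ S, E1 κ c σ M n q p.1 p.2) →
  ∃ (h P Q : ℕ) (l : Filter (ℕ × ℕ)), Br h M n P Q σ c κ ∧ Lim h M n P Q σ c κ l

/-- Row WEI (weights; uses only `Br.co`, `Br.hκ`, `Lim.U`, `Lim.T`, `0 < Q`).  The monomial
`U^i T^l` has weight `Q i + P l`; `T = (U^P/κ)^(1/Q) (1 + o(1))`, so
`U^i T^l / U^((Q i + P l)/Q) → κ^(-l/Q) > 0`.  Two monomials with `l, l' < Q` and equal weight are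
equal (`Q ∣ P (l - l')`).  So the monomial `e0` of maximal weight dominates:
`∑ / U^(weight/Q) → a e0 κ^(-l0/Q) ≠ 0`. -/
def WeiStmt : Prop := ∀ (h M n P Q : ℕ) (σ c κ : ℚ) (l : Filter (ℕ × ℕ)), Br h M n P Q σ c κ →
  Lim h M n P Q σ c κ l → ∀ (s : Finset (ℤ × ℕ)) (a : ℤ × ℕ → ℝ),
  (∀ e ∈ s, e.2 < Q ∧ a e ≠ 0) → ∀ e0 ∈ s,
  (∀ e ∈ s, (Q : ℤ) * e.1 + P * e.2 ≤ (Q : ℤ) * e0.1 + P * e0.2) →
  ∃ c0 : ℝ, 0 < c0 ∧ ∀ᶠ p : ℕ × ℕ in l,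
    c0 * (p.1 : ℝ) ^ ((((Q : ℤ) * e0.1 + P * e0.2 : ℤ) : ℝ) / (Q : ℝ)) ≤
      |∑ e ∈ s, a e * ((p.1 : ℝ) ^ e.1 * (p.2 : ℝ) ^ e.2)|

/-- Row RDC (reduction modulo the equation).  Weight `wt(i, l) = Q i + P l`.  Induction on
(weight, `l`), lexicographic.  `wt < 0`: `U^i T^l → 0`, `a = 0`.  `l < Q` and `wt ≥ 0`: `a` = the
monomial itself.  `l ≥ Q`: eventually `U ≠ 0` and
`T^Q = (κ U^Q)⁻¹ ((U^h + σ T^h)^M + c (U^h - σ T^h)^n)`; multiply by `U^i T^(l-Q)` and expand: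
monomials `U^(i - Q + h (M-j)) T^(l - Q + h j)` of weight `wt - h j (Q - P)` (for `j = 0` the same
weight, smaller exponent of `T`), and `U^(i - Q + h (n-j)) T^(l - Q + h j)` of weight
`wt - Q h (M - n) - h j (Q - P) < wt`. -/
def RdcStmt : Prop := ∀ (h M n P Q : ℕ) (σ c κ : ℚ) (l : Filter (ℕ × ℕ)), Br h M n P Q σ c κ →
  Lim h M n P Q σ c κ l → ∀ e : ℤ × ℕ, ∃ a : (ℤ × ℕ) →₀ ℚ,
  (∀ e' ∈ a.support, e'.2 < Q ∧ 0 ≤ (Q : ℤ) * e'.1 + P * e'.2 ∧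
    (Q : ℤ) * e'.1 + P * e'.2 ≤ (Q : ℤ) * e.1 + P * e.2) ∧
  Tendsto (fun p : ℕ × ℕ => (p.1 : ℝ) ^ e.1 * (p.2 : ℝ) ^ e.2 -
    a.sum fun e' t => (t : ℝ) * ((p.1 : ℝ) ^ e'.1 * (p.2 : ℝ) ^ e'.2)) l (𝓝 0)

open Polynomial in
/-- Row EXR (from RDC).  Unknowns: rational coefficients of `U^i T^l`, `i ≤ Q P`, `l ≤ Q`:
`(Q P + 1)(Q + 1)` of them.  The reductions of these monomials have `e'.2 = l' < Q` and weights in
`[0, Q (Q P) + P Q]`: at most `Q P + P + 1` values of `e'.1` for every `l'`, together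
`Q (Q P + P + 1) = (Q P + 1)(Q + 1) - 1`.  So there is a non-trivial combination `R` with zero
reduction, `R(U, T) → 0`.  A common denominator `d` of the coefficients: `d R(U, T) ∈ ℤ`, so
`R(U, T) = 0` eventually. -/
def ExrStmt : Prop := ∀ (h M n P Q : ℕ) (σ c κ : ℚ) (l : Filter (ℕ × ℕ)), Br h M n P Q σ c κ →
  Lim h M n P Q σ c κ l → ∃ R : (ℚ[X])[X], R ≠ 0 ∧ R.natDegree ≤ Q ∧
  ∀ᶠ p : ℕ × ℕ in l, R.evalEval (p.1 : ℚ) (p.2 : ℚ) = 0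

open Polynomial in
/-- Row FAC (from WEI, EXR).  (1) A non-zero `G ∈ ℚ[U][T]` of degree `< Q` in `T` is not `0`
frequently along `l` (WEI), so the `R` of EXR has degree exactly `Q`.  (2) Division in `ℚ(U)[T]`,
denominators cleared: `e(U) Fp = R q + r`, `deg r < Q`, `e ≠ 0`; `r` vanishes eventually, so `r = 0`,
`R ∣ Fp` in `ℚ(U)[T]` (`RatFunc ℚ` or `FractionRing ℚ[X]`).  (3) `σ^M Fp` is monic in `T` of degree
`h M > Q` (`σ^M = ±1`); `IsIntegrallyClosed.eq_map_mul_C_of_dvd`: `Fp = H * H2`, `H` monic in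
`ℚ[U][T]`, `R = C r * H` (`r` the leading coefficient of `R`), so `H` vanishes where `R` vanishes and
`r(U) ≠ 0`. -/
def FacStmt : Prop := ∀ (h M n P Q : ℕ) (σ c κ : ℚ) (l : Filter (ℕ × ℕ)), Br h M n P Q σ c κ →
  Lim h M n P Q σ c κ l → ∃ H H2 : (ℚ[X])[X], Fp h M n Q σ c κ = H * H2 ∧ H.Monic ∧
  H.natDegree = Q ∧ ∀ᶠ p : ℕ × ℕ in l, H.evalEval (p.1 : ℚ) (p.2 : ℚ) = 0

open Polynomial in
/-- Row MOH (from WEI).  `s` = the monomials `(i, l)` of `H` with `l < Q`.  If the largest weight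
`Q i + P l` on `s` is `> Q P`, then by WEI `|H - T^Q| ≥ c0 U^(weight/Q)`, weight/Q `≥ P + 1/Q`, but
`|H - T^Q| = T^Q ≤ 2 U^P/κ` eventually.  So `Q i + P l ≤ Q P` on `s` and
`Q (i + l) ≤ Q P + (Q - P)(Q - 1) < Q²`. -/
def MohStmt : Prop := ∀ (h M n P Q : ℕ) (σ c κ : ℚ) (l : Filter (ℕ × ℕ)), Br h M n P Q σ c κ →
  Lim h M n P Q σ c κ l → ∀ H : (ℚ[X])[X], H.Monic → H.natDegree = Q →
  (∀ᶠ p : ℕ × ℕ in l, H.evalEval (p.1 : ℚ) (p.2 : ℚ) = 0) →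
  ∀ j i : ℕ, j < Q → (H.coeff j).coeff i ≠ 0 → i + j < Q

open Polynomial in
/-- Row CMB (pure algebra, no limits).  `n < M` since `h n ≤ P < h M`.  Write `(G)_(i,j)` for the
coefficient of `U^i T^j`.
(1) Let `D` be the largest total degree `i + j` of a monomial of `H2` (`H2 ≠ 0`).  All monomials of
`H` except `T^Q` have total degree `< Q`, so in total degree `Q + D` the coefficients of `Fp = H H2`
are those of `T^Q` times the top part of `H2`, not all `0`.  The total degrees of the monomials of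
`Fp` are `2Q` (one monomial, `-κ U^Q T^Q`), `h M = P + Q` and `h n`; so `D = Q` would be fine and
otherwise `D < Q`, but the monomial `U^Q T^Q` of `Fp` needs `D ≥ Q` (its total degree is `2Q`).
So `D = Q` and the top part of `H2` is `-κ U^Q`.
(2) `H = T^Q + H'`, `H2 = -κ U^Q + H2'`, all monomials of `H', H2'` of total degree `≤ Q - 1`;
`(U^h + σT^h)^M + c (U^h - σT^h)^n = T^Q H2' - κ U^Q H' + H' H2'`.  The left side is not `0`, so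
`H'`, `H2'` are not both `0`; let `m ≤ Q - 1` be the largest total degree in `H'`, `H2'`.  In total
degree `Q + m` (`> 2m`) the right side has coefficient `(H2')_(i, j-Q)` if `j ≥ Q`,
`-κ (H')_(i-Q, j)` if `i ≥ Q`, `0` if `i, j < Q` (not both `≥ Q`), so it is not `0` in this degree;
so `Q + m = h M` (it is not `h n ≤ P < Q`), `m = P`.
(3) The monomial `U^(ha) T^(h(M-a))` with `P < h a < Q` has `h (M - a) = P + Q - h a < Q`; its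
coefficient on the left is `C(M,a) σ^(M-a) ≠ 0`: contradiction.  Such `a` exists if `h = 2`
(`2a = P + 1 < Q`, both odd) and if `h = 1`, `Q > P + 1`.
(4) `h = 1`, `Q = P + 1`, `M = 2P + 1`: by (2) `(H2')_(i,j) = C(M,i) σ^(j+Q)` and
`(H')_(i,j) = -κ⁻¹ C(M, i+Q) σ^j` for `i + j = P`.  Coefficient of `U^P T^P`: left side `0`
(`2P ≠ M`, `2P ≠ n`), right side only `(H' H2')_(P,P)`, where only the parts of degree `P`
contribute: `-κ⁻¹ σ^(P+Q) ∑_(i≤P) C(M, P-i)² ≠ 0`.  Contradiction. -/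
def CmbStmt : Prop := ∀ (h M n P Q : ℕ) (σ c κ : ℚ) (H H2 : (ℚ[X])[X]), Br h M n P Q σ c κ →
  Fp h M n Q σ c κ = H * H2 → H.Monic → H.natDegree = Q →
  (∀ j i : ℕ, j < Q → (H.coeff j).coeff i ≠ 0 → i + j < Q) → False

/-- Row FIX (from RED, BRA, FAC, MOH, CMB). -/
def FixStmt : Prop := ∀ x y z : ℕ, {p : ℕ × ℕ | Sol p.1 p.2 x y z}.Finite

/-! ### The theorem -/

/-- the exceptional pairs up to `N` -/
def Exc (N : ℕ) : Set (ℕ × ℕ) := {p | p.1 ≤ N ∧ ∃ x y z : ℕ, Sol p.1 p.2 x y z}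

/-- Row FIN (from BAS, CLO, TWO, CNT, FIX).  `θ = ε/4`, `m ≥ 32/ε + 2`, so `8/m ≤ ε/4`; `Z0, C0` from
CNT, `w0` from TWO.  A pair `(f, g) ∈ Exc N` belongs to one of
(a) `f < 10^11`: at most a constant;
(b) `max x y < Z`, `Z = 4 (Z0 + w0 + 100)`: by FIX and `z < 2 max x y` (BAS) finitely many pairs;
(c) `f < N^θ`: at most `N^(ε/2)` pairs;
(d) otherwise CLO: `Near f A W z w`, `w ≥ Z/4`, so `w ≤ (log f)^24 ≤ (log N)^24` (TWO), `z ≤ 3w`.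
The map `(f, g) ↦ (A, W)` is injective on `g < f` for each `τ` (`C ± A`, or `C² = A² + B²`).  So at
most `2 · ((log N)^24 + 1) (3 (log N)^24 + 1) C0 N^(ε/4)` pairs. -/
def FinStmt : Prop := ∀ ε : ℝ, 0 < ε → ∃ C : ℝ, ∀ N : ℕ, 1 ≤ N →
  ((Exc N).ncard : ℝ) ≤ C * (N : ℝ) ^ ε

end Pool.Agent.MNE
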